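import Mathlib
import Pool.Agent.R485.Trans.Saw

set_option autoImplicit false

/-!
Leading digits along the trajectories of the `3x+1` function: the exponential sums over the words of
length `L`, in the quadratic mean.
-/

namespace Pool.Agent.W5h47.BD

open Finset
open Pool.Agent.H469R2.NK (e norm_e e_add e_zero conj_e)

/-- the `3x+1` function -/
def T (n : ℕ) : ℕ := if n % 2 = 0 then n / 2 else (3 * n + 1) / 2

noncomputable def inc (x : ℕ) : ℝ := if x % 2 = 0 then -Real.log 2 else Real.log 3 - Real.log 2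

noncomputable def ac (i x : ℕ) : ℝ := ∑ j ∈ range i, inc (T^[j] x)

noncomputable def F (θ : ℝ) : ℕ → ℕ → ℂ
  | 0, _ => 0
  | (L + 1), x => 1 + e (θ * inc x) * F θ L (T x)

theorem ac_succ (i x : ℕ) : ac (i + 1) x = inc x + ac i (T x) := by
  unfold ac
  rw [sum_range_succ', add_comm]
  rfl

theorem ac_add_one (i x : ℕ) : ac (i + 1) x = ac i x + inc (T^[i] x) := by
  unfold ac
  rw [sum_range_succ]

theorem F_eq (θ : ℝ) : ∀ L x : ℕ, F θ L x = ∑ i ∈ range L, e (θ * ac i x) := by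
  intro L
  induction L with
  | zero => intro x; simp [F]
  | succ L ih =>
    intro x
    rw [F, ih, sum_range_succ', mul_sum]
    have e1 : ac 0 x = 0 := by simp [ac]
    rw [e1, mul_zero, e_zero, add_comm]
    congr 1
    refine sum_congr rfl fun i _ => ?_
    rw [ac_succ, mul_add, e_add]

theorem F_norm (θ : ℝ) (L x : ℕ) : ‖F θ L x‖ ≤ L := by
  rw [F_eq]
  refine (norm_sum_le _ _).trans ?_
  simp [norm_e]

theorem inc_abs (x : ℕ) : |inc x| ≤ 1 := by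
  have h2 := Real.log_two_gt_d9
  have h2' := Real.log_two_lt_d9
  have h3 : Real.log 3 < 2 * Real.log 2 := by
    rw [← Real.log_rpow (by norm_num)]
    exact Real.log_lt_log (by norm_num) (by norm_num)
  have h3' : Real.log 2 < Real.log 3 := Real.log_lt_log (by norm_num) (by norm_num)
  unfold inc
  split_ifs <;> rw [abs_le] <;> constructor <;> linarith

theorem ac_abs (i x : ℕ) : |ac i x| ≤ i := by
  unfold ac
  refine (abs_sum_le_sum_abs _ _).trans ?_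
  calc ∑ j ∈ range i, |inc (T^[j] x)| ≤ ∑ _j ∈ range i, (1 : ℝ) := sum_le_sum fun j _ => inc_abs _
    _ = i := by simp

theorem T_shift (x p : ℕ) : (T (x + 2 * p) = T x + p ∨ T (x + 2 * p) = T x + 3 * p) ∧
    inc (x + 2 * p) = inc x := by
  have hm : (x + 2 * p) % 2 = x % 2 := by omega
  refine ⟨?_, by unfold inc; rw [hm]⟩
  unfold T
  rw [hm]
  split_ifs
  · left; omega
  · right; omega

theorem F_per (θ : ℝ) : ∀ L x k : ℕ, F θ L (x + 2 ^ L * k) = F θ L x := by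
  intro L
  induction L with
  | zero => intro x k; rfl
  | succ L ih =>
    intro x k
    have e1 : x + 2 ^ (L + 1) * k = x + 2 * (2 ^ L * k) := by ring
    obtain ⟨h1, h2⟩ := T_shift x (2 ^ L * k)
    rw [e1, F, F, h2]
    rcases h1 with h | h
    · rw [h, ih]
    · rw [h, show T x + 3 * (2 ^ L * k) = T x + 2 ^ L * (3 * k) by ring, ih]

theorem sum_ap {M : Type} [AddCommMonoid M] (G : ℕ → M) (L : ℕ) (hG : ∀ x k, G (x + 2 ^ L * k) = G x)
    (u v : ℕ) (hu : u % 2 = 1) :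
    ∑ h ∈ range (2 ^ L), G (v + u * h) = ∑ h ∈ range (2 ^ L), G h := by
  have hpos : 0 < 2 ^ L := by positivity
  have hmod : ∀ x, G x = G (x % 2 ^ L) := fun x => by
    conv_lhs => rw [← Nat.mod_add_div x (2 ^ L)]
    rw [hG]
  have hmaps : Set.MapsTo (fun h => (v + u * h) % 2 ^ L) (range (2 ^ L) : Set ℕ) (range (2 ^ L)) := by
    intro h _
    rw [mem_coe, mem_range]
    exact Nat.mod_lt _ hpos
  have hinj : Set.InjOn (fun h => (v + u * h) % 2 ^ L) (range (2 ^ L) : Set ℕ) := by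
    intro a ha b hb hab
    rw [mem_coe, mem_range] at ha hb
    have h1 : v + u * a ≡ v + u * b [MOD 2 ^ L] := hab
    have h2 : u * a ≡ u * b [MOD 2 ^ L] := Nat.ModEq.add_left_cancel' v h1
    have hc : Nat.gcd (2 ^ L) u = 1 := by
      have : Nat.Coprime 2 u := by
        rw [Nat.Prime.coprime_iff_not_dvd Nat.prime_two]
        omega
      exact Nat.Coprime.pow_left L this
    have h3 := Nat.ModEq.cancel_left_of_coprime hc h2
    exact Nat.ModEq.eq_of_lt_of_lt h3 ha hb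
  refine Finset.sum_nbij (fun h => (v + u * h) % 2 ^ L) hmaps hinj ?_ fun h _ => hmod _
  exact Finset.surjOn_of_injOn_of_card_le _ hmaps hinj le_rfl

theorem sum_two {M : Type} [AddCommMonoid M] (f : ℕ → M) (n : ℕ) :
    ∑ x ∈ range (2 * n), f x = ∑ h ∈ range n, (f (2 * h) + f (2 * h + 1)) := by
  induction n with
  | zero => simp
  | succ n ih =>
    rw [show 2 * (n + 1) = 2 * n + 1 + 1 by ring, sum_range_succ, sum_range_succ, ih, sum_range_succ,
      add_assoc]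

/-- `(e (-θ log 2) + e (θ (log 3 - log 2))) / 2` -/
noncomputable def rho (θ : ℝ) : ℂ := (e (θ * -Real.log 2) + e (θ * (Real.log 3 - Real.log 2))) / 2

theorem T_even (h : ℕ) : T (2 * h) = h := by
  unfold T; rw [if_pos (by omega)]; omega

theorem T_odd (h : ℕ) : T (2 * h + 1) = 2 + 3 * h := by
  unfold T; rw [if_neg (by omega)]; omega

theorem inc_even (h : ℕ) : inc (2 * h) = -Real.log 2 := by
  unfold inc; rw [if_pos (by omega)]

theorem inc_odd (h : ℕ) : inc (2 * h + 1) = Real.log 3 - Real.log 2 := by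
  unfold inc; rw [if_neg (by omega)]

theorem M_rec (θ : ℝ) (L : ℕ) : ∑ x ∈ range (2 ^ (L + 1)), F θ (L + 1) x =
    2 * 2 ^ L + 2 * rho θ * ∑ x ∈ range (2 ^ L), F θ L x := by
  rw [show 2 ^ (L + 1) = 2 * 2 ^ L by ring, sum_two, sum_add_distrib]
  have h1 : ∑ h ∈ range (2 ^ L), F θ (L + 1) (2 * h) =
      2 ^ L + e (θ * -Real.log 2) * ∑ x ∈ range (2 ^ L), F θ L x := by
    simp only [F, T_even, inc_even]
    rw [sum_add_distrib, ← mul_sum]
    simp
  have h2 : ∑ h ∈ range (2 ^ L), F θ (L + 1) (2 * h + 1) =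
      2 ^ L + e (θ * (Real.log 3 - Real.log 2)) * ∑ x ∈ range (2 ^ L), F θ L x := by
    simp only [F, T_odd, inc_odd]
    rw [sum_add_distrib, ← mul_sum, sum_ap (fun x => F θ L x) L (F_per θ L) 3 2 (by norm_num)]
    simp
  rw [h1, h2]
  unfold rho
  ring

theorem M_eq (θ : ℝ) (L : ℕ) :
    (1 - rho θ) * ∑ x ∈ range (2 ^ L), F θ L x = 2 ^ L * (1 - rho θ ^ L) := by
  induction L with
  | zero => simp [F]
  | succ L ih =>
    rw [M_rec, mul_add, show (1 - rho θ) * (2 * rho θ * ∑ x ∈ range (2 ^ L), F θ L x) =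
      2 * rho θ * ((1 - rho θ) * ∑ x ∈ range (2 ^ L), F θ L x) by ring, ih]
    ring

theorem rho_norm (θ : ℝ) : ‖rho θ‖ ≤ 1 := by
  unfold rho
  rw [norm_div]
  have h1 : ‖e (θ * -Real.log 2) + e (θ * (Real.log 3 - Real.log 2))‖ ≤ 2 := by
    refine (norm_add_le _ _).trans ?_
    rw [norm_e, norm_e]
    norm_num
  have h2 : ‖(2 : ℂ)‖ = 2 := by norm_num
  rw [h2]
  linarith

theorem M_norm (θ : ℝ) (h : rho θ ≠ 1) (L : ℕ) :
    ‖∑ x ∈ range (2 ^ L), F θ L x‖ ≤ 2 ^ L * (2 / ‖1 - rho θ‖) := by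
  have h0 : 0 < ‖1 - rho θ‖ := norm_pos_iff.2 (sub_ne_zero.2 h.symm)
  have h1 := congrArg norm (M_eq θ L)
  rw [norm_mul, norm_mul] at h1
  have h2 : ‖(1 : ℂ) - rho θ ^ L‖ ≤ 2 := by
    refine (norm_sub_le _ _).trans ?_
    rw [norm_one, norm_pow]
    have := pow_le_one₀ (norm_nonneg _) (rho_norm θ) (n := L)
    linarith
  have h3 : ‖(2 : ℂ) ^ L‖ = 2 ^ L := by rw [norm_pow]; norm_num
  rw [h3] at h1
  rw [mul_div_assoc', le_div_iff₀ h0, mul_comm, h1]
  exact mul_le_mul_of_nonneg_left h2 (by positivity)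

theorem sq_norm (z w : ℂ) (hz : ‖z‖ = 1) : ‖1 + z * w‖ ^ 2 = 1 + 2 * (z * w).re + ‖w‖ ^ 2 := by
  have h1 : ‖1 + z * w‖ ^ 2 = Complex.normSq (1 + z * w) := (Complex.normSq_eq_norm_sq _).symm
  have h2 : ‖w‖ ^ 2 = ‖z * w‖ ^ 2 := by rw [norm_mul, hz, one_mul]
  rw [h1, h2, ← Complex.normSq_eq_norm_sq, Complex.normSq_add]
  simp [Complex.normSq_apply]
  ring

theorem S_rec (θ : ℝ) (L : ℕ) : ∑ x ∈ range (2 ^ (L + 1)), ‖F θ (L + 1) x‖ ^ 2 =
    2 * 2 ^ L + 4 * (rho θ * ∑ x ∈ range (2 ^ L), F θ L x).re +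
      2 * ∑ x ∈ range (2 ^ L), ‖F θ L x‖ ^ 2 := by
  rw [show 2 ^ (L + 1) = 2 * 2 ^ L by ring, sum_two, sum_add_distrib]
  have h1 : ∑ h ∈ range (2 ^ L), ‖F θ (L + 1) (2 * h)‖ ^ 2 =
      2 ^ L + 2 * (e (θ * -Real.log 2) * ∑ x ∈ range (2 ^ L), F θ L x).re +
        ∑ x ∈ range (2 ^ L), ‖F θ L x‖ ^ 2 := by
    simp only [F, T_even, inc_even]
    rw [sum_congr rfl fun h _ => sq_norm _ _ (norm_e _), sum_add_distrib, sum_add_distrib, ← mul_sum,
      ← Complex.re_sum, ← mul_sum]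
    simp
  have h2 : ∑ h ∈ range (2 ^ L), ‖F θ (L + 1) (2 * h + 1)‖ ^ 2 =
      2 ^ L + 2 * (e (θ * (Real.log 3 - Real.log 2)) * ∑ x ∈ range (2 ^ L), F θ L x).re +
        ∑ x ∈ range (2 ^ L), ‖F θ L x‖ ^ 2 := by
    simp only [F, T_odd, inc_odd]
    rw [sum_congr rfl fun h _ => sq_norm _ _ (norm_e _), sum_add_distrib, sum_add_distrib, ← mul_sum,
      ← Complex.re_sum, ← mul_sum, sum_ap (fun x => F θ L x) L (F_per θ L) 3 2 (by norm_num),
      sum_ap (fun x => ‖F θ L x‖ ^ 2) L (fun x k => by rw [F_per]) 3 2 (by norm_num)]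
    simp
  rw [h1, h2]
  have h3 : rho θ * ∑ x ∈ range (2 ^ L), F θ L x =
      (e (θ * -Real.log 2) * ∑ x ∈ range (2 ^ L), F θ L x +
        e (θ * (Real.log 3 - Real.log 2)) * ∑ x ∈ range (2 ^ L), F θ L x) / 2 := by
    unfold rho; ring
  have h4 : ∀ a b : ℂ, 4 * ((a + b) / 2).re = 2 * a.re + 2 * b.re := by
    intro a b
    rw [show (a + b) / 2 = (((1 / 2 : ℝ)) : ℂ) * (a + b) by push_cast; ring, Complex.re_ofReal_mul,
      Complex.add_re]
    ring
  rw [h3, h4]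
  ring

theorem S_bound (θ : ℝ) (h : rho θ ≠ 1) (L : ℕ) :
    ∑ x ∈ range (2 ^ L), ‖F θ L x‖ ^ 2 ≤ 2 ^ L * (L * (1 + 4 / ‖1 - rho θ‖)) := by
  induction L with
  | zero => simp [F]
  | succ L ih =>
    rw [S_rec]
    have h1 : (rho θ * ∑ x ∈ range (2 ^ L), F θ L x).re ≤ 2 ^ L * (2 / ‖1 - rho θ‖) := by
      refine (Complex.re_le_norm _).trans ?_
      rw [norm_mul]
      calc ‖rho θ‖ * ‖∑ x ∈ range (2 ^ L), F θ L x‖ ≤ 1 * (2 ^ L * (2 / ‖1 - rho θ‖)) :=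
            mul_le_mul (rho_norm θ) (M_norm θ h L) (norm_nonneg _) zero_le_one
        _ = _ := one_mul _
    push_cast
    have e1 : (2 : ℝ) ^ (L + 1) * ((L + 1) * (1 + 4 / ‖1 - rho θ‖)) = 2 * 2 ^ L +
        4 * (2 ^ L * (2 / ‖1 - rho θ‖)) + 2 * (2 ^ L * (L * (1 + 4 / ‖1 - rho θ‖))) := by ring
    rw [e1]
    linarith

/-- the mean of `‖F θ L x‖ / L` -/
theorem mean_F (θ : ℝ) (h : rho θ ≠ 1) (L : ℕ) (hL : 1 ≤ L) (u v : ℕ) (hu : u % 2 = 1) :
    (∑ j ∈ range (2 ^ L), ‖F θ L (v + u * j)‖ / L) / (2 ^ L : ℕ) ≤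
      Real.sqrt ((1 + 4 / ‖1 - rho θ‖) / L) := by
  have hL0 : (0 : ℝ) < L := by exact_mod_cast hL
  have hp : (0 : ℝ) < ((2 ^ L : ℕ) : ℝ) := by positivity
  rw [sum_ap (fun x => ‖F θ L x‖ / L) L (fun x k => by rw [F_per]) u v hu]
  refine Real.le_sqrt_of_sq_le ?_
  rw [div_pow, div_le_iff₀ (by positivity)]
  have h1 := sq_sum_le_card_mul_sum_sq (s := range (2 ^ L)) (f := fun x => ‖F θ L x‖ / L)
  refine h1.trans ?_
  rw [card_range]
  have h2 : ∑ x ∈ range (2 ^ L), (‖F θ L x‖ / L) ^ 2 = (∑ x ∈ range (2 ^ L), ‖F θ L x‖ ^ 2) / L ^ 2 := by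
    rw [sum_div]
    exact sum_congr rfl fun x _ => div_pow _ _ _
  rw [h2]
  have h3 := S_bound θ h L
  calc ((2 ^ L : ℕ) : ℝ) * ((∑ x ∈ range (2 ^ L), ‖F θ L x‖ ^ 2) / L ^ 2)
      ≤ ((2 ^ L : ℕ) : ℝ) * ((2 ^ L * (L * (1 + 4 / ‖1 - rho θ‖))) / L ^ 2) := by gcongr
    _ = (1 + 4 / ‖1 - rho θ‖) / L * ((2 ^ L : ℕ) : ℝ) ^ 2 := by
        push_cast
        field_simp

theorem e_one_iff {x : ℝ} (h : e x = 1) : ∃ n : ℤ, x = n := by
  unfold e at h
  rw [Complex.exp_eq_one_iff] at h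
  obtain ⟨n, hn⟩ := h
  refine ⟨n, ?_⟩
  have h1 : ((2 * Real.pi * x : ℝ) : ℂ) = ((2 * Real.pi * n : ℝ) : ℂ) := by
    have hI : Complex.I ≠ 0 := Complex.I_ne_zero
    apply mul_right_cancel₀ hI
    rw [hn]
    push_cast
    ring
  have h2 : 2 * Real.pi * x = 2 * Real.pi * n := by exact_mod_cast h1
  have h3 : (0 : ℝ) < 2 * Real.pi := by positivity
  exact mul_left_cancel₀ h3.ne' h2

theorem eq_one_of_re {z : ℂ} (hz : ‖z‖ = 1) (h : 1 ≤ z.re) : z = 1 := by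
  have h1 : z.re ≤ 1 := hz ▸ Complex.re_le_norm z
  have h2 : z.re = 1 := le_antisymm h1 h
  have h3 : z.re * z.re + z.im * z.im = 1 := by
    have := Complex.normSq_eq_norm_sq z
    rw [hz, Complex.normSq_apply] at this
    linarith
  have h4 : z.im = 0 := by
    have : z.im * z.im = 0 := by rw [h2] at h3; linarith
    exact mul_self_eq_zero.1 this
  exact Complex.ext (by simpa using h2) (by simpa using h4)

theorem rho_ne {θ : ℝ} (hθ : 0 < θ) : rho θ ≠ 1 := by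
  intro h
  set A := e (θ * -Real.log 2) with hA
  set B := e (θ * (Real.log 3 - Real.log 2)) with hB
  have hA1 : ‖A‖ = 1 := norm_e _
  have hB1 : ‖B‖ = 1 := norm_e _
  have h1 : A + B = 2 := by
    unfold rho at h
    rw [div_eq_one_iff_eq (by norm_num)] at h
    exact h
  have h2 : A.re + B.re = 2 := by
    have := congrArg Complex.re h1
    simpa using this
  have hAr : A.re ≤ 1 := hA1 ▸ Complex.re_le_norm A
  have hBr : B.re ≤ 1 := hB1 ▸ Complex.re_le_norm B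
  obtain ⟨a, ha⟩ := e_one_iff (eq_one_of_re hA1 (by linarith) : A = 1)
  obtain ⟨b, hb⟩ := e_one_iff (eq_one_of_re hB1 (by linarith) : B = 1)
  have hl2 : 0 < Real.log 2 := Real.log_pos (by norm_num)
  have hl3 : 0 < Real.log 3 := Real.log_pos (by norm_num)
  have c1 : θ * Real.log 2 = ((-a : ℤ) : ℝ) := by push_cast; linarith
  have c2 : θ * Real.log 3 = ((b - a : ℤ) : ℝ) := by push_cast; nlinarith
  have p1 : (0 : ℝ) < ((-a : ℤ) : ℝ) := by rw [← c1]; positivity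
  have p2 : (0 : ℝ) < ((b - a : ℤ) : ℝ) := by rw [← c2]; positivity
  have q1 : 0 < -a := by exact_mod_cast p1
  have q2 : 0 < b - a := by exact_mod_cast p2
  obtain ⟨u, hu⟩ := Int.eq_ofNat_of_zero_le q1.le
  obtain ⟨v, hv⟩ := Int.eq_ofNat_of_zero_le q2.le
  rw [hu] at c1
  rw [hv] at c2
  push_cast at c1 c2
  have c3 : Real.log ((2 : ℝ) ^ v) = Real.log ((3 : ℝ) ^ u) := by
    rw [Real.log_pow, Real.log_pow, ← c1, ← c2]
    ring
  have c4 : ((2 : ℝ) ^ v) = (3 : ℝ) ^ u := Real.log_injOn_pos (by simp) (by simp) c3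
  have c5 : (2 : ℕ) ^ v = 3 ^ u := by exact_mod_cast c4
  have hv0 : v ≠ 0 := by omega
  have c6 : 2 ∣ 3 ^ u := by rw [← c5]; exact dvd_pow_self 2 hv0
  have c7 := Nat.Prime.dvd_of_dvd_pow Nat.prime_two c6
  omega

theorem e_cont : Continuous e := by
  unfold e
  fun_prop

theorem rho_cont : Continuous rho := by
  unfold rho
  have := e_cont
  fun_prop

/-- a uniform lower bound -/
theorem rho_gap {a b : ℝ} (ha : 0 < a) : ∃ c : ℝ, 0 < c ∧ ∀ θ : ℝ, a ≤ θ → θ ≤ b →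
    c ≤ ‖1 - rho θ‖ := by
  rcases lt_or_ge b a with hab | hab
  · exact ⟨1, one_pos, fun θ h1 h2 => absurd (h1.trans h2) (not_le.2 hab)⟩
  · have hc : Continuous fun θ => ‖1 - rho θ‖ := (continuous_const.sub rho_cont).norm
    obtain ⟨z, hz, hmin⟩ := isCompact_Icc.exists_isMinOn (Set.nonempty_Icc.2 hab) hc.continuousOn
    refine ⟨‖1 - rho z‖, ?_, fun θ h1 h2 => hmin ⟨h1, h2⟩⟩
    exact norm_pos_iff.2 (sub_ne_zero.2 (rho_ne (ha.trans_le hz.1)).symm)

end Pool.Agent.W5h47.BD
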