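import Mathlib
import Pool.Agent.W5h47.BD.A

set_option autoImplicit false

/-!
Leading digits along the trajectories of the `3x+1` function: one trajectory.
-/

namespace Pool.Agent.W5h47.BD

open Finset
open Pool.Agent.H469R2.NK (e norm_e e_add e_zero conj_e)

theorem T_pos {x : ℕ} (hx : 1 ≤ x) : 1 ≤ T x := by
  unfold T
  split_ifs <;> omega

theorem T_iter_pos {x : ℕ} (hx : 1 ≤ x) (k : ℕ) : 1 ≤ T^[k] x := by
  induction k with
  | zero => exact hx
  | succ k ih => rw [Function.iterate_succ_apply']; exact T_pos ih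

theorem log_T {x : ℕ} (hx : 1 ≤ x) : 0 ≤ Real.log (T x) - Real.log x - inc x ∧
    Real.log (T x) - Real.log x - inc x ≤ 1 / x := by
  have hx0 : (0 : ℝ) < x := by exact_mod_cast hx
  by_cases h : x % 2 = 0
  · have e1 : x = 2 * T x := by unfold T; rw [if_pos h]; omega
    have hT : (0 : ℝ) < T x := by exact_mod_cast T_pos hx
    have e2 : Real.log x = Real.log 2 + Real.log (T x) := by
      conv_lhs => rw [e1]
      push_cast
      rw [Real.log_mul (by norm_num) hT.ne']
    have e3 : inc x = -Real.log 2 := by unfold inc; rw [if_pos h]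
    rw [e3]
    have : (0 : ℝ) ≤ 1 / x := by positivity
    constructor <;> linarith
  · have e1 : 2 * T x = 3 * x + 1 := by unfold T; rw [if_neg h]; omega
    have e1' : (T x : ℝ) = (3 / 2) * x * (1 + 1 / (3 * x)) := by
      have : (2 : ℝ) * T x = 3 * x + 1 := by exact_mod_cast e1
      field_simp
      linarith
    have hu : (0 : ℝ) < 1 / (3 * x) := by positivity
    have e2 : Real.log (T x) = Real.log 3 - Real.log 2 + Real.log x + Real.log (1 + 1 / (3 * x)) := by
      rw [e1', Real.log_mul (by positivity) (by positivity), Real.log_mul (by norm_num) hx0.ne',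
        Real.log_div (by norm_num) (by norm_num)]
    have e3 : inc x = Real.log 3 - Real.log 2 := by unfold inc; rw [if_neg h]
    have h1 : 0 ≤ Real.log (1 + 1 / (3 * x)) := Real.log_nonneg (by linarith)
    have h2 : Real.log (1 + 1 / (3 * x)) ≤ 1 / (3 * x) := by
      have := Real.log_le_sub_one_of_pos (show (0 : ℝ) < 1 + 1 / (3 * x) by linarith)
      linarith
    have h3 : (1 : ℝ) / (3 * x) ≤ 1 / x := by
      apply one_div_le_one_div_of_le hx0
      linarith
    rw [e2, e3]
    constructor <;> linarith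

theorem log_iter {x : ℕ} (hx : 1 ≤ x) (i : ℕ) : 0 ≤ Real.log (T^[i] x : ℕ) - Real.log x - ac i x ∧
    Real.log (T^[i] x : ℕ) - Real.log x - ac i x ≤ ∑ j ∈ range i, 1 / ((T^[j] x : ℕ) : ℝ) := by
  induction i with
  | zero => simp [ac]
  | succ i ih =>
    have h1 := log_T (T_iter_pos hx i)
    rw [Function.iterate_succ_apply', ac_add_one, sum_range_succ]
    constructor <;> linarith [ih.1, ih.2, h1.1, h1.2]

theorem norm_e_sub (x y : ℝ) : ‖e x - e y‖ ≤ 2 * Real.pi * |x - y| := by
  have h1 : e x - e y = e y * (e (x - y) - 1) := by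
    rw [mul_sub, ← e_add, mul_one]
    congr 2
    ring
  rw [h1, norm_mul, norm_e, one_mul]
  unfold e
  have h2 := Real.norm_exp_I_mul_ofReal_sub_one_le (x := 2 * Real.pi * (x - y))
  rw [mul_comm Complex.I] at h2
  refine h2.trans (le_of_eq ?_)
  rw [Real.norm_eq_abs, abs_mul, abs_of_pos (by positivity : (0 : ℝ) < 2 * Real.pi)]

theorem F_lip (θ θ' : ℝ) (L x : ℕ) : ‖F θ L x - F θ' L x‖ ≤ 2 * Real.pi * |θ - θ'| * L ^ 2 := by
  rw [F_eq, F_eq, ← sum_sub_distrib]
  refine (norm_sum_le _ _).trans ?_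
  calc ∑ i ∈ range L, ‖e (θ * ac i x) - e (θ' * ac i x)‖
      ≤ ∑ _i ∈ range L, 2 * Real.pi * |θ - θ'| * L := by
        refine sum_le_sum fun i hi => ?_
        refine (norm_e_sub _ _).trans ?_
        rw [← sub_mul, abs_mul]
        have h1 : |ac i x| ≤ L := (ac_abs i x).trans (by exact_mod_cast (mem_range.1 hi).le)
        have h2 : 0 ≤ |θ - θ'| := abs_nonneg _
        have h3 : 0 ≤ 2 * Real.pi := by positivity
        calc 2 * Real.pi * (|θ - θ'| * |ac i x|) ≤ 2 * Real.pi * (|θ - θ'| * L) := by gcongr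
          _ = _ := by ring
    _ = _ := by rw [sum_const, card_range, nsmul_eq_mul]; ring

/-- the exponential sum along the trajectory -/
noncomputable def W (θ : ℝ) (t n : ℕ) : ℂ := ∑ k ∈ range t, e (θ * Real.log (T^[k] n : ℕ))

theorem tele {G : ℕ → ℂ} (hG : ∀ i, ‖G i‖ ≤ 1) (K v : ℕ) :
    ‖∑ i ∈ range K, G i - ∑ i ∈ range K, G (i + v)‖ ≤ 2 * v := by
  have h1 : ∑ i ∈ range K, G i - ∑ i ∈ range K, G (i + v) =
      ∑ i ∈ range v, G i - ∑ i ∈ range v, G (i + K) := by
    have e1 := sum_range_add G K v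
    have e2 := sum_range_add G v K
    rw [add_comm v K] at e2
    have e3 : ∑ i ∈ range K, G (i + v) = ∑ x ∈ range K, G (v + x) :=
      sum_congr rfl fun i _ => by rw [add_comm]
    have e4 : ∑ i ∈ range v, G (i + K) = ∑ x ∈ range v, G (K + x) :=
      sum_congr rfl fun i _ => by rw [add_comm]
    rw [e3, e4]
    linear_combination -e1 + e2
  rw [h1]
  have hs : ∀ s : ℕ, ‖∑ i ∈ range v, G (i + s)‖ ≤ v := by
    intro s
    refine (norm_sum_le _ _).trans ?_
    calc ∑ i ∈ range v, ‖G (i + s)‖ ≤ ∑ _i ∈ range v, (1 : ℝ) := sum_le_sum fun i _ => hG _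
      _ = v := by simp
  refine (norm_sub_le _ _).trans ?_
  have a1 := hs 0
  have a2 := hs K
  simp only [add_zero] at a1
  linarith

theorem window {n : ℕ} (hn : 1 ≤ n) (θ : ℝ) {L t : ℕ} {Y : ℝ} (hY : 0 < Y)
    (hmin : ∀ k < t + L, Y ≤ ((T^[k] n : ℕ) : ℝ)) :
    L * ‖W θ t n‖ ≤ ∑ k ∈ range t, ‖F θ L (T^[k] n)‖ + 2 * L ^ 2 +
      2 * Real.pi * |θ| * (t * (L * (L / Y))) := by
  set G : ℕ → ℂ := fun k => e (θ * Real.log (T^[k] n : ℕ)) with hG
  have hG1 : ∀ i, ‖G i‖ ≤ 1 := fun i => (norm_e _).le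
  set D : ℂ := ∑ i ∈ range L, ∑ k ∈ range t, G (k + i) with hD
  have h1 : ‖(L : ℂ) * W θ t n - D‖ ≤ 2 * L ^ 2 := by
    have e1 : (L : ℂ) * W θ t n - D = ∑ i ∈ range L, (∑ k ∈ range t, G k - ∑ k ∈ range t, G (k + i)) := by
      rw [sum_sub_distrib, sum_const, card_range, nsmul_eq_mul]
      rfl
    rw [e1]
    refine (norm_sum_le _ _).trans ?_
    calc ∑ i ∈ range L, ‖∑ k ∈ range t, G k - ∑ k ∈ range t, G (k + i)‖
        ≤ ∑ _i ∈ range L, 2 * (L : ℝ) := by
          refine sum_le_sum fun i hi => ?_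
          refine (tele hG1 t i).trans ?_
          have : (i : ℝ) ≤ L := by exact_mod_cast (mem_range.1 hi).le
          linarith
      _ = _ := by rw [sum_const, card_range, nsmul_eq_mul]; ring
  have h2 : ‖D‖ ≤ ∑ k ∈ range t, ‖F θ L (T^[k] n)‖ + 2 * Real.pi * |θ| * (t * (L * (L / Y))) := by
    rw [hD, sum_comm]
    refine (norm_sum_le _ _).trans ?_
    have e2 : ∑ k ∈ range t, ‖F θ L (T^[k] n)‖ + 2 * Real.pi * |θ| * (t * (L * (L / Y))) =
        ∑ k ∈ range t, (‖F θ L (T^[k] n)‖ + 2 * Real.pi * |θ| * (L * (L / Y))) := by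
      rw [sum_add_distrib, sum_const, card_range, nsmul_eq_mul]
      ring
    rw [e2]
    refine sum_le_sum fun k hk => ?_
    rw [mem_range] at hk
    have e3 : ∑ i ∈ range L, G (k + i) = G k * F θ L (T^[k] n) +
        ∑ i ∈ range L, (G (k + i) - G k * e (θ * ac i (T^[k] n))) := by
      rw [F_eq, mul_sum, sum_sub_distrib]
      ring
    rw [e3]
    refine (norm_add_le _ _).trans ?_
    refine add_le_add ?_ ?_
    · rw [norm_mul]
      calc ‖G k‖ * ‖F θ L (T^[k] n)‖ ≤ 1 * ‖F θ L (T^[k] n)‖ :=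
            mul_le_mul_of_nonneg_right (hG1 k) (norm_nonneg _)
        _ = _ := one_mul _
    · refine (norm_sum_le _ _).trans ?_
      calc ∑ i ∈ range L, ‖G (k + i) - G k * e (θ * ac i (T^[k] n))‖
          ≤ ∑ _i ∈ range L, 2 * Real.pi * |θ| * (L / Y) := by
            refine sum_le_sum fun i hi => ?_
            rw [mem_range] at hi
            have e4 : G (k + i) - G k * e (θ * ac i (T^[k] n)) =
                e (θ * Real.log (T^[i] (T^[k] n) : ℕ)) -
                  e (θ * Real.log (T^[k] n : ℕ) + θ * ac i (T^[k] n)) := by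
              rw [e_add, ← Function.iterate_add_apply, add_comm i k]
            rw [e4]
            refine (norm_e_sub _ _).trans ?_
            have hl := log_iter (T_iter_pos hn k) i
            rw [show θ * Real.log (T^[i] (T^[k] n) : ℕ) -
              (θ * Real.log (T^[k] n : ℕ) + θ * ac i (T^[k] n)) =
              θ * (Real.log (T^[i] (T^[k] n) : ℕ) - Real.log (T^[k] n : ℕ) - ac i (T^[k] n)) by ring,
              abs_mul, abs_of_nonneg hl.1]
            have hs : ∑ j ∈ range i, 1 / ((T^[j] (T^[k] n) : ℕ) : ℝ) ≤ L / Y := by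
              calc ∑ j ∈ range i, 1 / ((T^[j] (T^[k] n) : ℕ) : ℝ) ≤ ∑ _j ∈ range i, 1 / Y := by
                    refine sum_le_sum fun j hj => ?_
                    rw [mem_range] at hj
                    apply one_div_le_one_div_of_le hY
                    rw [← Function.iterate_add_apply]
                    exact hmin _ (by omega)
                _ = i * (1 / Y) := by rw [sum_const, card_range, nsmul_eq_mul]
                _ ≤ L * (1 / Y) := by
                    apply mul_le_mul_of_nonneg_right _ (by positivity)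
                    exact_mod_cast hi.le
                _ = L / Y := by ring
            have h3 : 0 ≤ 2 * Real.pi := by positivity
            calc 2 * Real.pi * (|θ| * (Real.log (T^[i] (T^[k] n) : ℕ) - Real.log (T^[k] n : ℕ) -
                ac i (T^[k] n))) ≤ 2 * Real.pi * (|θ| * (L / Y)) := by
                  have := hl.2.trans hs
                  gcongr
              _ = _ := by ring
        _ = _ := by rw [sum_const, card_range, nsmul_eq_mul]; ring
  have h3 : (L : ℝ) * ‖W θ t n‖ = ‖(L : ℂ) * W θ t n‖ := by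
    rw [norm_mul, Complex.norm_natCast]
  rw [h3]
  have h4 : ‖(L : ℂ) * W θ t n‖ ≤ ‖(L : ℂ) * W θ t n - D‖ + ‖D‖ := by
    have := norm_add_le ((L : ℂ) * W θ t n - D) D
    rwa [sub_add_cancel] at this
  linarith

/-- the number of the `k < t` for which the fractional part of `log_B (T^k n)` is in `[a, b)` -/
noncomputable def cnt (B a b : ℝ) (t n : ℕ) : ℕ :=
  ((range t).filter fun k => a ≤ Int.fract (Real.logb B (T^[k] n : ℕ)) ∧
    Int.fract (Real.logb B (T^[k] n : ℕ)) < b).card

theorem disc (B : ℝ) (t n K : ℕ) (hK : 1 ≤ K) {δ w : ℝ} (hδ0 : 0 < δ) (hδ1 : δ ≤ 1)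
    (hKδ : 1 ≤ K * δ ^ 2) (hw : ∀ h : ℕ, 1 ≤ h → h ≤ K → ‖W (h / Real.log B) t n‖ ≤ w) {a b : ℝ}
    (ha : 0 ≤ a) (hab : a ≤ b) (hb : b ≤ 1) :
    |(cnt B a b t n : ℝ) - (b - a) * t| ≤ 2 * (K * w + 2 * (t * δ)) := by
  have hK0 : (0 : ℝ) < K := by exact_mod_cast hK
  have ht0 : (0 : ℝ) ≤ t := Nat.cast_nonneg _
  have hw0 : 0 ≤ w := (norm_nonneg _).trans (hw 1 le_rfl hK)
  have saw : ∀ β : ℝ, |∑ k ∈ range t, (Int.fract (Real.logb B (T^[k] n : ℕ) - β) - 1 / 2)| ≤
      K * w + 2 * (t * δ) := by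
    intro β
    have h1 := Pool.Agent.R485.Trans.saw_bound (range t) (fun k => Real.logb B (T^[k] n : ℕ) - β) K hK δ
      hδ0 hδ1
    refine h1.trans ?_
    rw [card_range]
    have h2 : ∑ h ∈ Icc 1 K, ‖∑ k ∈ range t, e (h * (Real.logb B (T^[k] n : ℕ) - β))‖ / h ≤ K * w := by
      calc ∑ h ∈ Icc 1 K, ‖∑ k ∈ range t, e (h * (Real.logb B (T^[k] n : ℕ) - β))‖ / h
          ≤ ∑ _h ∈ Icc 1 K, w := by
            refine sum_le_sum fun h hh => ?_
            obtain ⟨hh1, hh2⟩ := mem_Icc.1 hh
            have hh0 : (1 : ℝ) ≤ h := by exact_mod_cast hh1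
            have e1 : ∑ k ∈ range t, e (h * (Real.logb B (T^[k] n : ℕ) - β)) =
                e (-(h * β)) * W (h / Real.log B) t n := by
              unfold W
              rw [mul_sum]
              refine sum_congr rfl fun k _ => ?_
              rw [← e_add]
              congr 1
              unfold Real.logb
              ring
            rw [e1, norm_mul, norm_e, one_mul]
            exact (div_le_self (norm_nonneg _) hh0).trans (hw h hh1 hh2)
        _ = K * w := by rw [sum_const, Nat.card_Icc, nsmul_eq_mul, Nat.add_sub_cancel]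
    have h3 : (t : ℝ) / (K * δ) ≤ t * δ := by
      rw [div_le_iff₀ (by positivity)]
      calc (t : ℝ) = t * 1 := (mul_one _).symm
        _ ≤ t * (K * δ ^ 2) := by gcongr
        _ = t * δ * (K * δ) := by ring
    linarith
  rcases hab.lt_or_eq with hlt | heq
  · have e1 : (cnt B a b t n : ℝ) - (b - a) * t =
        ∑ k ∈ range t, (Int.fract (Real.logb B (T^[k] n : ℕ) - b) - 1 / 2) -
          ∑ k ∈ range t, (Int.fract (Real.logb B (T^[k] n : ℕ) - a) - 1 / 2) := by
      rw [← sum_sub_distrib]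
      have e2 : ∀ k ∈ range t, (Int.fract (Real.logb B (T^[k] n : ℕ) - b) - 1 / 2) -
          (Int.fract (Real.logb B (T^[k] n : ℕ) - a) - 1 / 2) =
          (if a ≤ Int.fract (Real.logb B (T^[k] n : ℕ)) ∧ Int.fract (Real.logb B (T^[k] n : ℕ)) < b
            then (1 : ℝ) else 0) - (b - a) := fun k _ =>
        (Pool.Agent.R485.Trans.indicator_eq _ a b ha hlt hb).symm
      rw [sum_congr rfl e2, sum_sub_distrib, sum_const, card_range, nsmul_eq_mul, sum_boole]
      unfold cnt
      ring
    rw [e1]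
    have h1 := saw b
    have h2 := saw a
    refine (abs_sub _ _).trans ?_
    linarith
  · subst heq
    have e1 : cnt B a a t n = 0 := by
      unfold cnt
      rw [card_eq_zero, filter_eq_empty_iff]
      intro k _ h
      linarith [h.1, h.2]
    rw [e1]
    simp only [Nat.cast_zero, sub_self, zero_mul, abs_zero]
    positivity

theorem cnt_mono (B a b : ℝ) {s t : ℕ} (h : s ≤ t) (n : ℕ) : cnt B a b s n ≤ cnt B a b t n ∧
    cnt B a b t n ≤ cnt B a b s n + (t - s) := by
  unfold cnt
  have hsub : range s ⊆ range t := by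
    intro x hx
    rw [mem_range] at hx ⊢
    omega
  constructor
  · exact card_le_card (filter_subset_filter _ hsub)
  · have h1 : (range t).filter (fun k => a ≤ Int.fract (Real.logb B (T^[k] n : ℕ)) ∧
        Int.fract (Real.logb B (T^[k] n : ℕ)) < b) ⊆
        (range s).filter (fun k => a ≤ Int.fract (Real.logb B (T^[k] n : ℕ)) ∧
          Int.fract (Real.logb B (T^[k] n : ℕ)) < b) ∪ Ico s t := by
      intro x hx
      rw [mem_filter, mem_range] at hx
      rw [mem_union, mem_filter, mem_range, mem_Ico]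
      rcases lt_or_ge x s with h2 | h2
      · exact Or.inl ⟨h2, hx.2⟩
      · exact Or.inr ⟨h2, hx.1⟩
    refine (card_le_card h1).trans ((card_union_le _ _).trans ?_)
    rw [Nat.card_Ico]

end Pool.Agent.W5h47.BD
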