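import Mathlib
import Pool.Agent.W5h47.BD.B
import Pool.Agent.R344.SP.I
import Pool.Agent.R344.SP.Q

set_option autoImplicit false

/-!
Leading digits along the trajectories of the `3x+1` function: almost all trajectories.
-/

namespace Pool.Agent.W5h47.BD

open Finset

/-- the sampling principle of the starting files (`MP_2d22f3_nt.SamplingPrinciple`) -/
theorem sampling_nat (κ ε : ℝ) (hκ : κ < 2 / Real.log (4 / 3)) (hε : 0 < ε) :
    ∃ m : ℕ, ∀ q H : ℕ, 3 ^ m ∣ q → 1 ≤ H → ∃ N₀ : ℕ, ∀ N ≥ N₀, ∀ g : ℕ → ℕ → ℝ,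
      (∀ k x, |g k x| ≤ 1) →
        (Set.ncard {n : ℕ | 1 ≤ n ∧ n ≤ N ∧ ∃ t : ℕ, (t : ℝ) ≤ κ * Real.log n ∧
          ε * Real.log n < |∑ k ∈ Finset.range t,
            (g k (T^[k] n) - (∑ h ∈ Finset.range H, g k (T^[k] n + q * h)) / H)|} : ℝ) ≤ ε * N := by
  obtain ⟨κ', hκ0, hκκ, hκ1⟩ := R344.SP.kappa_bridge hκ
  obtain ⟨m, hm⟩ := R344.SP.sampling (d := 1) (by norm_num) isCoprime_one_left hκ0 hκ1 (ε := ε / 2)
    (by positivity)
  refine ⟨m, fun q H hq hH => ?_⟩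
  obtain ⟨N₀, hN₀⟩ := hm q H (by
    rw [one_mul]
    obtain ⟨c, rfl⟩ := hq
    exact ⟨c, by push_cast; ring⟩) hH
  obtain ⟨N₁, hN₁⟩ := R344.SP.finish (α := {g : ℕ → ℕ → ℝ // ∀ k x, |g k x| ≤ 1}) hκκ
    (fun g n t => |∑ k ∈ Finset.range t,
      (g.1 k (T^[k] n) - (∑ h ∈ Finset.range H, g.1 k (T^[k] n + q * h)) / H)|) hε (by
    refine ⟨N₀, fun N hN g S hS => ?_⟩
    refine hN₀ N hN (fun k x => g.1 k x.toNat) (fun k x => g.2 _ _) S ?_
    intro n hn
    obtain ⟨h1, h2, t, ht, hbig⟩ := hS n hn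
    refine ⟨h1, h2, t, ht, hbig.trans_eq ?_⟩
    congr 1
    apply Finset.sum_congr rfl
    intro k _
    rw [R344.SP.iter_cast (T := T) (fun _ => rfl) k n]
    have : ∀ h : ℕ, ((T^[k] n : ℕ) : ℤ) + (q : ℤ) * h = ((T^[k] n + q * h : ℕ) : ℤ) := by
      intro h; push_cast; rfl
    simp only [this, Int.toNat_natCast])
  exact ⟨N₁, fun N hN g hg => hN₁ N hN ⟨g, hg⟩⟩

/-- the set of the exceptions for the function `g` -/
def Ex (κ ε : ℝ) (m : ℕ) (H : ℕ) (g : ℕ → ℝ) (N : ℕ) : Set ℕ :=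
  {n : ℕ | 1 ≤ n ∧ n ≤ N ∧ ∃ t : ℕ, (t : ℝ) ≤ κ * Real.log n ∧
    ε * Real.log n < |∑ k ∈ Finset.range t,
      (g (T^[k] n) - (∑ h ∈ Finset.range H, g (T^[k] n + 3 ^ m * h)) / H)|}

theorem ex_fin (κ ε : ℝ) (m H : ℕ) (g : ℕ → ℝ) (N : ℕ) : (Ex κ ε m H g N).Finite :=
  (Set.finite_Icc 1 N).subset fun _ hn => ⟨hn.1, hn.2.1⟩

theorem not_ex {κ ε : ℝ} {m H : ℕ} {g : ℕ → ℝ} {N n : ℕ} (h1 : 1 ≤ n) (h2 : n ≤ N)
    (h : n ∉ Ex κ ε m H g N) {t : ℕ} (ht : (t : ℝ) ≤ κ * Real.log n) :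
    |∑ k ∈ Finset.range t,
      (g (T^[k] n) - (∑ h ∈ Finset.range H, g (T^[k] n + 3 ^ m * h)) / H)| ≤ ε * Real.log n := by
  by_contra hcon
  push Not at hcon
  exact h ⟨h1, h2, t, ht, hcon⟩

theorem pow3_odd (m : ℕ) : 3 ^ m % 2 = 1 := by
  rw [Nat.pow_mod]; norm_num

theorem log43_lt : 1 < 2 / Real.log (4 / 3) := by
  have h0 : 0 < Real.log (4 / 3) := Real.log_pos (by norm_num)
  have h1 : Real.log (4 / 3) ≤ 4 / 3 - 1 := Real.log_le_sub_one_of_pos (by norm_num)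
  rw [lt_div_iff₀ h0]
  linarith

/-- the mean of `inc` -/
theorem mean_inc (u v : ℕ) (hu : u % 2 = 1) :
    (∑ h ∈ range 2, inc (v + u * h)) / (2 : ℕ) = -(1 / 2 * Real.log (4 / 3)) := by
  have hper : ∀ x k : ℕ, inc (x + 2 ^ 1 * k) = inc x := by
    intro x k
    unfold inc
    rw [show (x + 2 ^ 1 * k) % 2 = x % 2 by omega]
  have h1 := sum_ap inc 1 hper u v hu
  rw [pow_one] at h1
  rw [h1, sum_range_succ, sum_range_one]
  have e0 : inc 0 = -Real.log 2 := by unfold inc; simp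
  have e1 : inc 1 = Real.log 3 - Real.log 2 := by unfold inc; simp
  rw [e0, e1, Real.log_div (by norm_num) (by norm_num), show (4 : ℝ) = 2 ^ 2 by norm_num, Real.log_pow]
  push_cast
  ring

/-- THE EXPONENTIAL SUMS along almost all trajectories, uniformly in the frequency -/
theorem sums (κ ε a b : ℝ) (hκ : κ < 2 / Real.log (4 / 3)) (hε : 0 < ε) (ha : 0 < a) :
    ∃ N₀ : ℕ, ∀ N ≥ N₀, (Set.ncard {n : ℕ | 1 ≤ n ∧ n ≤ N ∧ ∃ t : ℕ, (t : ℝ) ≤ κ * Real.log n ∧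
      ∃ θ : ℝ, a ≤ θ ∧ θ ≤ b ∧ ε * Real.log n < ‖W θ t n‖} : ℝ) ≤ ε * N := by
  have hlog : 0 < Real.log (4 / 3) := Real.log_pos (by norm_num)
  set mu : ℝ := 1 / 2 * Real.log (4 / 3) with hmu
  have hmu0 : 0 < mu := by positivity
  set κ' : ℝ := max κ 1 with hκ'
  have hκ'1 : 1 ≤ κ' := le_max_right _ _
  have hκ'2 : κ' < 2 / Real.log (4 / 3) := max_lt hκ log43_lt
  have hκ'mu : κ' * mu < 1 := by
    rw [lt_div_iff₀ hlog] at hκ'2
    rw [hmu]; linarith
  set c₁ : ℝ := (1 - κ' * mu) / 2 with hc₁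
  have hc₁0 : 0 < c₁ := by rw [hc₁]; linarith
  obtain ⟨c, hc, hgap⟩ := rho_gap (a := a) (b := b) ha
  set C : ℝ := 1 + 4 / c with hC
  have hC0 : 0 < C := by positivity
  -- the length of the words
  obtain ⟨L, hL⟩ := exists_nat_ge (max 1 (C * (8 * κ' / ε) ^ 2))
  have hL1 : (1 : ℝ) ≤ L := (le_max_left _ _).trans hL
  have hL1' : 1 ≤ L := by exact_mod_cast hL1
  have hL0 : (0 : ℝ) < L := by linarith
  have hsq : κ' * Real.sqrt (C / L) ≤ ε / 8 := by
    have h1 : Real.sqrt (C / L) ≤ ε / (8 * κ') := by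
      rw [Real.sqrt_le_left (by positivity)]
      have h2 : C * (8 * κ' / ε) ^ 2 ≤ L := (le_max_right _ _).trans hL
      rw [div_le_iff₀ hL0]
      calc C = (ε / (8 * κ')) ^ 2 * (C * (8 * κ' / ε) ^ 2) := by field_simp
        _ ≤ (ε / (8 * κ')) ^ 2 * L := by gcongr
    calc κ' * Real.sqrt (C / L) ≤ κ' * (ε / (8 * κ')) := by gcongr
      _ = ε / 8 := by field_simp
  -- the net of frequencies
  set η : ℝ := ε / (8 * κ' * (2 * Real.pi * L)) with hη
  have hη0 : 0 < η := by rw [hη]; positivity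
  obtain ⟨J, hJ⟩ := exists_nat_gt ((b - a) / η)
  set θj : ℕ → ℝ := fun j => min (a + j * η) b with hθj
  set ε₁ : ℝ := min (ε / (4 * (J + 2))) (min (ε / 8) c₁) with hε₁
  have hε₁0 : 0 < ε₁ := by rw [hε₁]; positivity
  have hε₁a : ε₁ ≤ ε / (4 * (J + 2)) := min_le_left _ _
  have hε₁b : ε₁ ≤ ε / 8 := (min_le_right _ _).trans (min_le_left _ _)
  have hε₁c : ε₁ ≤ c₁ := (min_le_right _ _).trans (min_le_right _ _)
  obtain ⟨m, hm⟩ := sampling_nat κ' ε₁ hκ'2 hε₁0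
  obtain ⟨N₁, hN₁⟩ := hm (3 ^ m) (2 ^ L) dvd_rfl Nat.one_le_two_pow
  obtain ⟨N₂, hN₂⟩ := hm (3 ^ m) 2 dvd_rfl (by norm_num)
  -- the large integers
  have ht1 : Filter.Tendsto (fun n : ℕ => Real.log (n : ℝ)) Filter.atTop Filter.atTop :=
    Real.tendsto_log_atTop.comp tendsto_natCast_atTop_atTop
  have hbt : ∃ n₀ : ℕ, 1 ≤ n₀ ∧ ∀ n ≥ n₀, 1 ≤ Real.log (n : ℝ) ∧ 2 * L ≤ ε / 8 * Real.log (n : ℝ) ∧
      2 * Real.pi * |b| * (κ' * L) ≤ ε / 8 * Real.exp (c₁ * Real.log (n : ℝ) - L) := by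
    have h1 := ht1.eventually_ge_atTop 1
    have h2 := ht1.eventually_ge_atTop (2 * L / (ε / 8))
    have h3 : Filter.Tendsto (fun n : ℕ => Real.exp (c₁ * Real.log (n : ℝ) - L)) Filter.atTop
        Filter.atTop := by
      apply Real.tendsto_exp_atTop.comp
      apply Filter.tendsto_atTop_add_const_right
      exact ht1.const_mul_atTop hc₁0
    have h4 := h3.eventually_ge_atTop (2 * Real.pi * |b| * (κ' * L) / (ε / 8))
    obtain ⟨n₀, hn₀⟩ := Filter.eventually_atTop.1 (h1.and (h2.and h4))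
    refine ⟨max n₀ 1, le_max_right _ _, fun n hn => ?_⟩
    obtain ⟨g1, g2, g3⟩ := hn₀ n ((le_max_left _ _).trans hn)
    refine ⟨g1, ?_, ?_⟩
    · rw [div_le_iff₀ (by positivity)] at g2
      linarith
    · rw [div_le_iff₀ (by positivity)] at g3
      linarith
  obtain ⟨n₀, hn₀1, hn₀⟩ := hbt
  obtain ⟨N₃, hN₃⟩ := exists_nat_ge (2 * n₀ / ε)
  refine ⟨max (max N₁ N₂) N₃, fun N hN => ?_⟩
  have hNa : N₁ ≤ N := ((le_max_left _ _).trans (le_max_left _ _)).trans hN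
  have hNb : N₂ ≤ N := ((le_max_right _ _).trans (le_max_left _ _)).trans hN
  have hNc : N₃ ≤ N := (le_max_right _ _).trans hN
  have hNr : 2 * (n₀ : ℝ) ≤ ε * N := by
    have h1 : 2 * (n₀ : ℝ) / ε ≤ N := hN₃.trans (by exact_mod_cast hNc)
    rw [div_le_iff₀ hε] at h1
    linarith
  have hN0 : (0 : ℝ) ≤ N := Nat.cast_nonneg _
  set g : ℕ → ℕ → ℝ := fun j x => ‖F (θj j) L x‖ / L with hg
  have hg1 : ∀ j x, |g j x| ≤ 1 := by
    intro j x
    rw [hg]; dsimp only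
    rw [abs_div, abs_norm, abs_of_pos hL0, div_le_one hL0]
    exact F_norm _ _ _
  -- the exceptional set
  set S : Set ℕ := (Set.Icc 1 n₀ ∪ Ex κ' ε₁ m 2 inc N) ∪ ⋃ j ∈ range (J + 1), Ex κ' ε₁ m (2 ^ L) (g j) N
    with hS
  have hSfin : S.Finite := by
    rw [hS]
    refine ((Set.finite_Icc _ _).union (ex_fin _ _ _ _ _ _)).union ?_
    exact Set.Finite.biUnion (Finset.finite_toSet _) fun j _ => ex_fin _ _ _ _ _ _
  have hScard : (S.ncard : ℝ) ≤ ε * N := by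
    have h1 : (Set.Icc 1 n₀).ncard = n₀ := by
      rw [Set.ncard_eq_toFinset_card', Set.toFinset_Icc, Nat.card_Icc, Nat.add_sub_cancel]
    have h2 : ((Ex κ' ε₁ m 2 inc N).ncard : ℝ) ≤ ε₁ * N := by
      exact_mod_cast hN₂ N hNb (fun _ => inc) (fun _ x => inc_abs x)
    have h3 : ∀ j, ((Ex κ' ε₁ m (2 ^ L) (g j) N).ncard : ℝ) ≤ ε₁ * N := fun j => by
      exact_mod_cast hN₁ N hNa (fun _ => g j) (fun _ x => hg1 j x)
    have h4 : ((⋃ j ∈ range (J + 1), Ex κ' ε₁ m (2 ^ L) (g j) N).ncard : ℝ) ≤ (J + 1) * (ε₁ * N) := by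
      have h5 : (⋃ j ∈ range (J + 1), Ex κ' ε₁ m (2 ^ L) (g j) N).ncard ≤
          ∑ j ∈ range (J + 1), (Ex κ' ε₁ m (2 ^ L) (g j) N).ncard := by
        classical
        have : ∀ s : Finset ℕ, (⋃ j ∈ s, Ex κ' ε₁ m (2 ^ L) (g j) N).ncard ≤
            ∑ j ∈ s, (Ex κ' ε₁ m (2 ^ L) (g j) N).ncard := by
          intro s
          induction s using Finset.induction_on with
          | empty => simp
          | insert j s hj ih =>
            rw [sum_insert hj, Finset.set_biUnion_insert]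
            exact (Set.ncard_union_le _ _).trans (Nat.add_le_add_left ih _)
        exact this _
      calc ((⋃ j ∈ range (J + 1), Ex κ' ε₁ m (2 ^ L) (g j) N).ncard : ℝ)
          ≤ ((∑ j ∈ range (J + 1), (Ex κ' ε₁ m (2 ^ L) (g j) N).ncard : ℕ) : ℝ) := by exact_mod_cast h5
        _ = ∑ j ∈ range (J + 1), ((Ex κ' ε₁ m (2 ^ L) (g j) N).ncard : ℝ) := by push_cast; rfl
        _ ≤ ∑ _j ∈ range (J + 1), ε₁ * N := sum_le_sum fun j _ => h3 j
        _ = _ := by rw [sum_const, card_range, nsmul_eq_mul]; push_cast; ring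
    have h5 : (S.ncard : ℝ) ≤ n₀ + ε₁ * N + (J + 1) * (ε₁ * N) := by
      have h6 : S.ncard ≤ (Set.Icc 1 n₀).ncard + (Ex κ' ε₁ m 2 inc N).ncard +
          (⋃ j ∈ range (J + 1), Ex κ' ε₁ m (2 ^ L) (g j) N).ncard :=
        (Set.ncard_union_le _ _).trans (Nat.add_le_add_right (Set.ncard_union_le _ _) _)
      rw [h1] at h6
      have h7 : (S.ncard : ℝ) ≤ n₀ + ((Ex κ' ε₁ m 2 inc N).ncard : ℝ) +
          ((⋃ j ∈ range (J + 1), Ex κ' ε₁ m (2 ^ L) (g j) N).ncard : ℝ) := by exact_mod_cast h6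
      linarith
    have h6 : ((J : ℝ) + 2) * ε₁ ≤ ε / 4 := by
      have : ε₁ * (4 * (J + 2)) ≤ ε := by
        rwa [le_div_iff₀ (by positivity)] at hε₁a
      linarith
    have h7 : ((J : ℝ) + 2) * ε₁ * N ≤ ε / 4 * N := by gcongr
    have h8 : 0 ≤ ε * N := by positivity
    nlinarith
  refine le_trans ?_ hScard
  have : Set.ncard {n : ℕ | 1 ≤ n ∧ n ≤ N ∧ ∃ t : ℕ, (t : ℝ) ≤ κ * Real.log n ∧
      ∃ θ : ℝ, a ≤ θ ∧ θ ≤ b ∧ ε * Real.log n < ‖W θ t n‖} ≤ S.ncard := by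
    apply Set.ncard_le_ncard _ hSfin
    rintro n ⟨h1, h2, t, ht, θ, hθa, hθb, hbig⟩
    by_contra hnS
    rw [hS, Set.mem_union, Set.mem_union, not_or, not_or] at hnS
    obtain ⟨⟨hs1, hs2⟩, hs3⟩ := hnS
    have hnn : n₀ ≤ n := by
      by_contra hcon
      exact hs1 ⟨h1, by omega⟩
    obtain ⟨g1, g2, g3⟩ := hn₀ n hnn
    have hlog0 : 0 ≤ Real.log (n : ℝ) := by linarith
    have ht' : (t : ℝ) ≤ κ' * Real.log n := ht.trans (mul_le_mul_of_nonneg_right (le_max_left _ _) hlog0)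
    -- the size of the terms
    have hsize : ∀ k : ℕ, (k : ℝ) ≤ κ' * Real.log n → c₁ * Real.log n ≤ Real.log (T^[k] n : ℕ) := by
      intro k hk
      have h3 := not_ex h1 h2 hs2 hk
      have h4 : ∀ i ∈ range k, inc (T^[i] n) - (∑ h ∈ range 2, inc (T^[i] n + 3 ^ m * h)) / (2 : ℕ) =
          inc (T^[i] n) + mu := by
        intro i _
        rw [mean_inc (3 ^ m) (T^[i] n) (pow3_odd m)]
        ring
      rw [sum_congr rfl h4, sum_add_distrib, sum_const, card_range, nsmul_eq_mul] at h3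
      have h5 : -(ε₁ * Real.log n) ≤ ac k n + k * mu := (abs_le.1 h3).1
      have h6 := (log_iter h1 k).1
      have h7 : (k : ℝ) * mu ≤ κ' * mu * Real.log n := by nlinarith
      have h8 : ε₁ * Real.log n ≤ c₁ * Real.log n := by gcongr
      have h9 : (1 - κ' * mu) * Real.log n = 2 * c₁ * Real.log n := by rw [hc₁]; ring
      nlinarith
    set Y : ℝ := Real.exp (c₁ * Real.log n - L) with hY
    have hY0 : 0 < Y := Real.exp_pos _
    have hmin : ∀ k < t + L, Y ≤ ((T^[k] n : ℕ) : ℝ) := by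
      intro k hk
      have hpos : (0 : ℝ) < ((T^[k] n : ℕ) : ℝ) := by exact_mod_cast T_iter_pos h1 k
      rw [hY, ← Real.le_log_iff_exp_le hpos]
      rcases Nat.lt_or_ge k t with h3 | h3
      · have h4 : (k : ℝ) ≤ t := by exact_mod_cast h3.le
        have := hsize k (h4.trans ht')
        linarith
      · have h4 := hsize t ht'
        have h5 := (log_iter (T_iter_pos h1 t) (k - t)).1
        rw [← Function.iterate_add_apply, show k - t + t = k by omega] at h5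
        have h6 := (abs_le.1 (ac_abs (k - t) (T^[t] n))).1
        have h7 : (((k - t : ℕ) : ℝ)) ≤ L := by
          have : k - t ≤ L := by omega
          exact_mod_cast this
        linarith
    -- the frequency of the net
    obtain ⟨j, hj, hjd⟩ : ∃ j ∈ range (J + 1), |θ - θj j| ≤ η := by
      refine ⟨⌊(θ - a) / η⌋₊, ?_, ?_⟩
      · rw [mem_range]
        have h3 : (θ - a) / η ≤ (b - a) / η := by gcongr
        have h4 : (⌊(θ - a) / η⌋₊ : ℝ) ≤ (θ - a) / η :=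
          Nat.floor_le (div_nonneg (by linarith) hη0.le)
        have h5 : (⌊(θ - a) / η⌋₊ : ℝ) < J := by linarith
        have h6 : ⌊(θ - a) / η⌋₊ < J := by exact_mod_cast h5
        omega
      · have h4 : (⌊(θ - a) / η⌋₊ : ℝ) ≤ (θ - a) / η :=
          Nat.floor_le (div_nonneg (by linarith) hη0.le)
        have h5 : (θ - a) / η < ⌊(θ - a) / η⌋₊ + 1 := Nat.lt_floor_add_one _
        rw [le_div_iff₀ hη0] at h4
        rw [div_lt_iff₀ hη0] at h5
        rw [hθj]; dsimp only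
        rw [min_eq_left (by linarith), abs_of_nonneg (by linarith)]
        linarith
    have hθja : a ≤ θj j := by
      rw [hθj]; dsimp only
      apply le_min
      · have : (0 : ℝ) ≤ j * η := by positivity
        linarith
      · linarith
    have hθjb : θj j ≤ b := min_le_right _ _
    have hs3' : n ∉ Ex κ' ε₁ m (2 ^ L) (g j) N := by
      intro h
      exact hs3 (Set.mem_biUnion hj h)
    have hne : Pool.Agent.W5h47.BD.rho (θj j) ≠ 1 := rho_ne (ha.trans_le hθja)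
    have h3 := not_ex h1 h2 hs3' ht'
    have h4 : ∑ k ∈ range t, g j (T^[k] n) ≤ t * Real.sqrt (C / L) + ε₁ * Real.log n := by
      have h5 : ∀ k ∈ range t, (∑ h ∈ range (2 ^ L), g j (T^[k] n + 3 ^ m * h)) / (2 ^ L : ℕ) ≤
          Real.sqrt (C / L) := by
        intro k _
        refine (mean_F (θj j) hne L hL1' (3 ^ m) (T^[k] n) (pow3_odd m)).trans ?_
        apply Real.sqrt_le_sqrt
        have h6 : 4 / ‖1 - rho (θj j)‖ ≤ 4 / c :=
          div_le_div_of_nonneg_left (by norm_num) hc (hgap _ hθja hθjb)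
        rw [hC]
        gcongr
      have h6 := (abs_le.1 h3).2
      rw [sum_sub_distrib] at h6
      have h7 := sum_le_sum h5
      rw [sum_const, card_range, nsmul_eq_mul] at h7
      linarith
    have h5 := window h1 θ (L := L) (t := t) hY0 hmin
    have h6 : ∑ k ∈ range t, ‖F θ L (T^[k] n)‖ ≤ L * ∑ k ∈ range t, g j (T^[k] n) +
        t * (2 * Real.pi * η * L ^ 2) := by
      rw [mul_sum]
      have h7 : ∀ k ∈ range t, ‖F θ L (T^[k] n)‖ ≤ L * g j (T^[k] n) + 2 * Real.pi * η * L ^ 2 := by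
        intro k _
        have h8 := F_lip θ (θj j) L (T^[k] n)
        have h9 : ‖F θ L (T^[k] n)‖ ≤ ‖F θ L (T^[k] n) - F (θj j) L (T^[k] n)‖ + ‖F (θj j) L (T^[k] n)‖ := by
          have := norm_add_le (F θ L (T^[k] n) - F (θj j) L (T^[k] n)) (F (θj j) L (T^[k] n))
          rwa [sub_add_cancel] at this
        have h10 : (L : ℝ) * g j (T^[k] n) = ‖F (θj j) L (T^[k] n)‖ := by
          rw [hg]; dsimp only
          field_simp
        have h11 : 2 * Real.pi * |θ - θj j| * L ^ 2 ≤ 2 * Real.pi * η * L ^ 2 := by gcongr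
        linarith
      have h8 := sum_le_sum h7
      rw [sum_add_distrib, sum_const, card_range, nsmul_eq_mul] at h8
      exact h8
    have h7 : ‖W θ t n‖ ≤ ∑ k ∈ range t, g j (T^[k] n) + t * (2 * Real.pi * η * L) + 2 * L +
        2 * Real.pi * |θ| * (t * (L / Y)) := by
      have h8 : L * ‖W θ t n‖ ≤ L * (∑ k ∈ range t, g j (T^[k] n) + t * (2 * Real.pi * η * L) + 2 * L +
          2 * Real.pi * |θ| * (t * (L / Y))) := by
        refine h5.trans ?_
        have e1 : L * (∑ k ∈ range t, g j (T^[k] n) + t * (2 * Real.pi * η * L) + 2 * L +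
            2 * Real.pi * |θ| * (t * (L / Y))) = L * ∑ k ∈ range t, g j (T^[k] n) +
              t * (2 * Real.pi * η * L ^ 2) + 2 * L ^ 2 + 2 * Real.pi * |θ| * (t * (L * (L / Y))) := by
          ring
        rw [e1]
        linarith
      exact le_of_mul_le_mul_left h8 hL0
    have i1 : t * Real.sqrt (C / L) ≤ ε / 8 * Real.log n := by
      calc t * Real.sqrt (C / L) ≤ κ' * Real.log n * Real.sqrt (C / L) := by gcongr
        _ = κ' * Real.sqrt (C / L) * Real.log n := by ring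
        _ ≤ ε / 8 * Real.log n := by gcongr
    have i2 : ε₁ * Real.log n ≤ ε / 8 * Real.log n := by gcongr
    have i3 : t * (2 * Real.pi * η * L) ≤ ε / 8 * Real.log n := by
      calc t * (2 * Real.pi * η * L) ≤ κ' * Real.log n * (2 * Real.pi * η * L) := by gcongr
        _ = ε / 8 * Real.log n := by
            rw [hη]
            have := Real.pi_pos
            field_simp
    have i4 : 2 * Real.pi * |θ| * (t * (L / Y)) ≤ ε / 8 * Real.log n := by
      have hb : |θ| ≤ |b| := by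
        rw [abs_of_pos (ha.trans_le hθa), abs_of_pos (ha.trans_le (hθa.trans hθb))]
        exact hθb
      calc 2 * Real.pi * |θ| * (t * (L / Y)) ≤ 2 * Real.pi * |b| * (κ' * Real.log n * (L / Y)) := by
            gcongr
        _ = (2 * Real.pi * |b| * (κ' * L)) / Y * Real.log n := by ring
        _ ≤ ε / 8 * Real.log n := mul_le_mul_of_nonneg_right ((div_le_iff₀ hY0).2 g3) hlog0
    have i5 : 0 ≤ ε * Real.log n := by positivity
    linarith
  exact_mod_cast this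

/-- LEADING DIGITS along almost all trajectories, uniformly in the base and in the time -/
theorem digits (κ ε B₀ B₁ : ℝ) (hκ : κ < 2 / Real.log (4 / 3)) (hε : 0 < ε) (hB₀ : 1 < B₀) :
    ∃ N₀ : ℕ, ∀ N ≥ N₀, (Set.ncard {n : ℕ | 1 ≤ n ∧ n ≤ N ∧ ∃ t : ℕ, (t : ℝ) ≤ κ * Real.log n ∧
      ∃ B a b : ℝ, B₀ ≤ B ∧ B ≤ B₁ ∧ 0 ≤ a ∧ a ≤ b ∧ b ≤ 1 ∧
        ε * Real.log n < |(cnt B a b t n : ℝ) - (b - a) * t|} : ℝ) ≤ ε * N := by
  set κ' : ℝ := max κ 1 with hκ'
  have hκ'1 : 1 ≤ κ' := le_max_right _ _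
  set δ : ℝ := min 1 (ε / (8 * κ')) with hδ
  have hδ0 : 0 < δ := by rw [hδ]; positivity
  have hδ1 : δ ≤ 1 := min_le_left _ _
  have hδ2 : δ ≤ ε / (8 * κ') := min_le_right _ _
  obtain ⟨K, hK⟩ := exists_nat_ge (max 1 (1 / δ ^ 2))
  have hK1 : (1 : ℝ) ≤ K := (le_max_left _ _).trans hK
  have hK1' : 1 ≤ K := by exact_mod_cast hK1
  have hKδ : 1 ≤ K * δ ^ 2 := by
    have := (le_max_right _ _).trans hK
    rwa [div_le_iff₀ (by positivity)] at this
  have hl0 : 0 < Real.log B₀ := Real.log_pos hB₀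
  set M : ℝ := max B₁ B₀ with hM
  have hM1 : B₀ ≤ M := le_max_right _ _
  have hlM : 0 < Real.log M := Real.log_pos (hB₀.trans_le hM1)
  obtain ⟨N₀, hN₀⟩ := sums κ (ε / (4 * K)) (1 / Real.log M) (K / Real.log B₀) hκ (by positivity)
    (by positivity)
  refine ⟨N₀, fun N hN => ?_⟩
  have h1 := hN₀ N hN
  have h2 : ε / (4 * K) * N ≤ ε * N := by
    apply mul_le_mul_of_nonneg_right _ (Nat.cast_nonneg _)
    apply div_le_self hε.le
    linarith
  refine le_trans ?_ (h1.trans h2)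
  have hfin : {n : ℕ | 1 ≤ n ∧ n ≤ N ∧ ∃ t : ℕ, (t : ℝ) ≤ κ * Real.log n ∧
      ∃ θ : ℝ, 1 / Real.log M ≤ θ ∧ θ ≤ K / Real.log B₀ ∧
        ε / (4 * K) * Real.log n < ‖W θ t n‖}.Finite :=
    (Set.finite_Icc 1 N).subset fun _ hn => ⟨hn.1, hn.2.1⟩
  have : Set.ncard {n : ℕ | 1 ≤ n ∧ n ≤ N ∧ ∃ t : ℕ, (t : ℝ) ≤ κ * Real.log n ∧
      ∃ B a b : ℝ, B₀ ≤ B ∧ B ≤ B₁ ∧ 0 ≤ a ∧ a ≤ b ∧ b ≤ 1 ∧
        ε * Real.log n < |(cnt B a b t n : ℝ) - (b - a) * t|} ≤ Set.ncard {n : ℕ | 1 ≤ n ∧ n ≤ N ∧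
      ∃ t : ℕ, (t : ℝ) ≤ κ * Real.log n ∧
      ∃ θ : ℝ, 1 / Real.log M ≤ θ ∧ θ ≤ K / Real.log B₀ ∧
        ε / (4 * K) * Real.log n < ‖W θ t n‖} := by
    apply Set.ncard_le_ncard _ hfin
    rintro n ⟨h3, h4, t, ht, B, a, b, hBa, hBb, ha, hab, hb, hbig⟩
    refine ⟨h3, h4, t, ht, ?_⟩
    by_contra hcon
    push Not at hcon
    have hn1 : (1 : ℝ) ≤ n := by exact_mod_cast h3
    have hlog0 : 0 ≤ Real.log (n : ℝ) := Real.log_nonneg hn1
    have hB1 : 1 < B := hB₀.trans_le hBa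
    have hlB : 0 < Real.log B := Real.log_pos hB1
    have hlB0 : Real.log B₀ ≤ Real.log B := Real.log_le_log (by linarith) hBa
    have hlBM : Real.log B ≤ Real.log M := Real.log_le_log (by linarith) (hBb.trans (le_max_left _ _))
    have hd := disc B t n K hK1' hδ0 hδ1 hKδ (w := ε / (4 * K) * Real.log n) (by
      intro h hh1 hh2
      have hhr : (1 : ℝ) ≤ h := by exact_mod_cast hh1
      have hhK : (h : ℝ) ≤ K := by exact_mod_cast hh2
      apply hcon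
      · exact div_le_div₀ (by linarith) hhr hlB hlBM
      · exact div_le_div₀ (by linarith) hhK hl0 hlB0) ha hab hb
    have ht' : (t : ℝ) ≤ κ' * Real.log n := ht.trans (mul_le_mul_of_nonneg_right (le_max_left _ _) hlog0)
    have e1 : (K : ℝ) * (ε / (4 * K) * Real.log n) = ε / 4 * Real.log n := by
      field_simp
    have e2 : t * δ ≤ ε / 8 * Real.log n := by
      calc t * δ ≤ κ' * Real.log n * (ε / (8 * κ')) := by gcongr
        _ = ε / 8 * Real.log n := by field_simp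
    rw [e1] at hd
    linarith
  exact_mod_cast this

end Pool.Agent.W5h47.BD
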