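import Mathlib
import Pool.Agent.W5h47.BD.C
import Pool.Agent.H499R2.NDLln3

set_option autoImplicit false

/-!
Leading digits along almost all complete trajectories of the `3x+1` function.
-/

namespace Pool.Agent.W5h47.BD

open Finset Filter Topology
open Pool.Agent.H499R2.ND (Dn cnt_eq Tn Bas zd_iff zd_mono)

theorem Tn_eq : Tn = T := rfl

theorem zd_of {P : ℕ → Prop} (h : ∀ ε : ℝ, 0 < ε → ∃ N₀ : ℕ, ∀ N ≥ N₀,
    (Set.ncard {n : ℕ | 1 ≤ n ∧ n ≤ N ∧ P n} : ℝ) ≤ ε * N) : Dn P 0 := by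
  rw [zd_iff]
  intro ε hε
  obtain ⟨N₀, hN₀⟩ := h ε hε
  exact eventually_atTop.2 ⟨N₀, fun N hN => hN₀ N hN⟩

theorem part1 (κ ε B₀ B₁ : ℝ) (hκ : κ < 2 / Real.log (4 / 3)) (hε : 0 < ε) (hB₀ : 1 < B₀) :
    Dn (fun n => ∃ t : ℕ, (t : ℝ) ≤ κ * Real.log n ∧
      ∃ B a b : ℝ, B₀ ≤ B ∧ B ≤ B₁ ∧ 0 ≤ a ∧ a ≤ b ∧ b ≤ 1 ∧
        ε * Real.log n < |(cnt B a b t n : ℝ) - (b - a) * t|) 0 := by
  apply zd_of
  intro ε' hε'
  obtain ⟨N₀, hN₀⟩ := digits κ (min ε ε') B₀ B₁ hκ (lt_min hε hε') hB₀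
  refine ⟨N₀, fun N hN => ?_⟩
  refine le_trans ?_ ((hN₀ N hN).trans (mul_le_mul_of_nonneg_right (min_le_right _ _)
    (Nat.cast_nonneg _)))
  have hfin : {n : ℕ | 1 ≤ n ∧ n ≤ N ∧ ∃ t : ℕ, (t : ℝ) ≤ κ * Real.log n ∧
      ∃ B a b : ℝ, B₀ ≤ B ∧ B ≤ B₁ ∧ 0 ≤ a ∧ a ≤ b ∧ b ≤ 1 ∧
        min ε ε' * Real.log n < |(cnt B a b t n : ℝ) - (b - a) * t|}.Finite :=
    (Set.finite_Icc 1 N).subset fun _ hn => ⟨hn.1, hn.2.1⟩
  have : Set.ncard {n : ℕ | 1 ≤ n ∧ n ≤ N ∧ ∃ t : ℕ, (t : ℝ) ≤ κ * Real.log n ∧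
      ∃ B a b : ℝ, B₀ ≤ B ∧ B ≤ B₁ ∧ 0 ≤ a ∧ a ≤ b ∧ b ≤ 1 ∧
        ε * Real.log n < |(cnt B a b t n : ℝ) - (b - a) * t|} ≤
      Set.ncard {n : ℕ | 1 ≤ n ∧ n ≤ N ∧ ∃ t : ℕ, (t : ℝ) ≤ κ * Real.log n ∧
      ∃ B a b : ℝ, B₀ ≤ B ∧ B ≤ B₁ ∧ 0 ≤ a ∧ a ≤ b ∧ b ≤ 1 ∧
        min ε ε' * Real.log n < |(cnt B a b t n : ℝ) - (b - a) * t|} := by
    apply Set.ncard_le_ncard _ hfin
    rintro n ⟨h1, h2, t, ht, B, a, b, g1, g2, g3, g4, g5, g6⟩
    refine ⟨h1, h2, t, ht, B, a, b, g1, g2, g3, g4, g5, lt_of_le_of_lt ?_ g6⟩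
    have hn1 : (1 : ℝ) ≤ n := by exact_mod_cast h1
    exact mul_le_mul_of_nonneg_right (min_le_left _ _) (Real.log_nonneg hn1)
  exact_mod_cast this

/-- the total stopping time is at least `log n` -/
theorem log_le_time {n t : ℕ} (hn : 1 ≤ n) (ht : T^[t] n = 1) : Real.log n ≤ t := by
  have h1 := (log_iter hn t).1
  rw [ht] at h1
  have h2 := (abs_le.1 (ac_abs t n)).1
  simp only [Nat.cast_one, Real.log_one] at h1
  linarith

theorem zd_union {P Q : ℕ → Prop} (hP : Dn P 0) (hQ : Dn Q 0) : Dn (fun n => P n ∨ Q n) 0 := by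
  rw [zd_iff] at hP hQ ⊢
  intro ε hε
  filter_upwards [hP (ε / 2) (by positivity), hQ (ε / 2) (by positivity)] with N h1 h2
  unfold Pool.Agent.H499R2.ND.cnt at *
  have h3 : {n : ℕ | 1 ≤ n ∧ n ≤ N ∧ (P n ∨ Q n)} =
      {n : ℕ | 1 ≤ n ∧ n ≤ N ∧ P n} ∪ {n : ℕ | 1 ≤ n ∧ n ≤ N ∧ Q n} := by
    ext n
    simp only [Set.mem_setOf_eq, Set.mem_union]
    tauto
  rw [h3]
  have h4 := Set.ncard_union_le {n : ℕ | 1 ≤ n ∧ n ≤ N ∧ P n} {n : ℕ | 1 ≤ n ∧ n ≤ N ∧ Q n}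
  have h5 : ((({n : ℕ | 1 ≤ n ∧ n ≤ N ∧ P n} ∪ {n : ℕ | 1 ≤ n ∧ n ≤ N ∧ Q n}).ncard : ℕ) : ℝ) ≤
      ({n : ℕ | 1 ≤ n ∧ n ≤ N ∧ P n}.ncard : ℝ) + ({n : ℕ | 1 ≤ n ∧ n ≤ N ∧ Q n}.ncard : ℝ) := by
    exact_mod_cast h4
  linarith

theorem zd_small (C : ℝ) : Dn (fun n : ℕ => Real.log n ≤ C) 0 := by
  rw [zd_iff]
  intro ε hε
  have h1 : Filter.Tendsto (fun N : ℕ => ε * (N : ℝ)) atTop atTop :=
    tendsto_natCast_atTop_atTop.const_mul_atTop hε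
  filter_upwards [h1.eventually_ge_atTop (Real.exp C + 1)] with N hN
  refine le_trans ?_ hN
  unfold Pool.Agent.H499R2.ND.cnt
  have h2 : {n : ℕ | 1 ≤ n ∧ n ≤ N ∧ Real.log n ≤ C} ⊆ Set.Icc 1 ⌊Real.exp C⌋₊ := by
    rintro n ⟨g1, _, g3⟩
    refine ⟨g1, Nat.le_floor ?_⟩
    have hpos : (0 : ℝ) < n := by exact_mod_cast g1
    rwa [← Real.log_le_iff_le_exp hpos]
  have h3 := Set.ncard_le_ncard h2 (Set.finite_Icc _ _)
  rw [Set.ncard_eq_toFinset_card' (Set.Icc 1 ⌊Real.exp C⌋₊), Set.toFinset_Icc, Nat.card_Icc,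
    Nat.add_sub_cancel] at h3
  calc ({n : ℕ | 1 ≤ n ∧ n ≤ N ∧ Real.log n ≤ C}.ncard : ℝ) ≤ (⌊Real.exp C⌋₊ : ℝ) := by
        exact_mod_cast h3
    _ ≤ Real.exp C := Nat.floor_le (Real.exp_pos C).le
    _ ≤ Real.exp C + 1 := by linarith

/-- complete trajectories -/
theorem part2 (ε B₀ B₁ : ℝ) (hε : 0 < ε) (hB₀ : 1 < B₀) :
    Dn (fun n => ∃ t : ℕ, (T^[t] n = 1 ∧ ∀ j < t, T^[j] n ≠ 1) ∧ ∃ s ≤ t,
      ∃ B a b : ℝ, B₀ ≤ B ∧ B ≤ B₁ ∧ 0 ≤ a ∧ a ≤ b ∧ b ≤ 1 ∧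
        ε * t < |(cnt B a b s n : ℝ) - (b - a) * s|) 0 := by
  obtain ⟨δ, _, _, _, hδ⟩ := Pool.Agent.H499R2.ND.Bas_density
  set v : ℝ := 2 / Real.log (4 / 3) with hv
  set η : ℝ := ε / 16 with hη
  have hη0 : 0 < η := by positivity
  have h1 := part1 (v - η) (ε / 4) B₀ B₁ (by linarith) (by positivity) hB₀
  have h2 := Pool.Agent.H499R2.ND.bas_zd hδ (fun n _ ⟨t, ht, _⟩ => ⟨t, ht⟩)
    (Pool.Agent.H499R2.ND.bas_profile hδ (ε := η) hη0)
  have h3 := zd_small (max 1 (16 / ε))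
  refine zd_mono (zd_union (zd_union h1 h2) h3) ?_
  rintro n hn ⟨t, ⟨ht, htm⟩, s, hs, B, a, b, g1, g2, g3, g4, g5, g6⟩
  by_contra hcon
  rw [not_or, not_or] at hcon
  obtain ⟨⟨hc1, hc2⟩, hc3⟩ := hcon
  push Not at hc3
  have hl1 : 1 < Real.log n := (le_max_left _ _).trans_lt hc3
  have hl2 : 16 / ε < Real.log n := (le_max_right _ _).trans_lt hc3
  have hl3 : 16 < ε * Real.log n := by
    rw [div_lt_iff₀ hε] at hl2
    linarith
  have htl := log_le_time hn ht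
  -- the stopping time
  have htime : (t : ℝ) ≤ (v + η) * Real.log n := by
    have hB : Bas n := ⟨t, ht⟩
    have h4 : ∃ t : ℕ, Tn^[t] n = 1 ∧ (∀ j < t, Tn^[j] n ≠ 1) ∧
        |(t : ℝ) - 2 / Real.log (4 / 3) * Real.log n| ≤ η * Real.log n ∧
        ∀ j ≤ t, |Real.log ((Tn^[j] n : ℕ) : ℝ) - (Real.log n - j / 2 * Real.log (4 / 3))|
          ≤ η * Real.log n := by
      by_contra h5
      exact hc2 ⟨hB, h5⟩
    obtain ⟨t', ht', htm', h5, _⟩ := h4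
    have e1 : t' = t := by
      rcases lt_trichotomy t' t with h6 | h6 | h6
      · exact absurd ht' (htm t' h6)
      · exact h6
      · exact absurd ht (htm' t h6)
    subst e1
    have := (abs_le.1 h5).2
    linarith
  have key : ∀ s' : ℕ, (s' : ℝ) ≤ (v - η) * Real.log n →
      |(cnt B a b s' n : ℝ) - (b - a) * s'| ≤ ε / 4 * Real.log n := by
    intro s' hs'
    by_contra h4
    push Not at h4
    exact hc1 ⟨s', hs', B, a, b, g1, g2, g3, g4, g5, h4⟩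
  set s' : ℕ := min s ⌊(v - η) * Real.log n⌋₊ with hs'
  have hsr : (s : ℝ) ≤ t := by exact_mod_cast hs
  rcases le_or_gt 0 (v - η) with hvη | hvη
  · have hnn : 0 ≤ (v - η) * Real.log n := mul_nonneg hvη (by linarith)
    have k1 : (s' : ℝ) ≤ (v - η) * Real.log n := by
      have : (s' : ℝ) ≤ (⌊(v - η) * Real.log n⌋₊ : ℝ) := by exact_mod_cast min_le_right _ _
      exact this.trans (Nat.floor_le hnn)
    have k2 : s' ≤ s := min_le_left _ _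
    have k3 : (s : ℝ) - s' ≤ 2 * η * Real.log n + 1 := by
      rcases le_total s ⌊(v - η) * Real.log n⌋₊ with h5 | h5
      · have e1 : s' = s := min_eq_left h5
        rw [e1]
        have : 0 ≤ 2 * η * Real.log n := by positivity
        linarith
      · have e1 : s' = ⌊(v - η) * Real.log n⌋₊ := min_eq_right h5
        rw [e1]
        have := Nat.lt_floor_add_one ((v - η) * Real.log n)
        linarith
    obtain ⟨m1, m2⟩ := cnt_mono B a b k2 n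
    have m1' : (cnt B a b s' n : ℝ) ≤ cnt B a b s n := by exact_mod_cast m1
    have m2' : (cnt B a b s n : ℝ) ≤ cnt B a b s' n + ((s : ℝ) - s') := by
      have : ((cnt B a b s n : ℕ) : ℝ) ≤ ((cnt B a b s' n + (s - s') : ℕ) : ℝ) := by exact_mod_cast m2
      rw [Nat.cast_add, Nat.cast_sub k2] at this
      exact this
    have k4 := abs_le.1 (key s' k1)
    have k2' : (s' : ℝ) ≤ s := by exact_mod_cast k2
    have hba : 0 ≤ b - a := by linarith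
    have hba1 : b - a ≤ 1 := by linarith
    have k5 : (b - a) * ((s : ℝ) - s') ≤ (s : ℝ) - s' := by
      calc (b - a) * ((s : ℝ) - s') ≤ 1 * ((s : ℝ) - s') :=
            mul_le_mul_of_nonneg_right hba1 (by linarith)
        _ = _ := one_mul _
    have k6 : 0 ≤ (b - a) * ((s : ℝ) - s') := mul_nonneg hba (by linarith)
    have k7 : |(cnt B a b s n : ℝ) - (b - a) * s| ≤ ε / 4 * Real.log n + (2 * η * Real.log n + 1) := by
      rw [abs_le]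
      constructor <;> nlinarith [k4.1, k4.2]
    have k8 : ε / 4 * Real.log n + (2 * η * Real.log n + 1) ≤ ε * Real.log n := by
      rw [hη]
      linarith
    have k9 : ε * Real.log n ≤ ε * t := by gcongr
    linarith
  · -- then `ε` is large and the claim is trivial
    have hv1 : 1 < v := log43_lt
    have hε16 : 16 < ε := by
      rw [hη] at hvη
      linarith
    have c1 : (cnt B a b s n : ℝ) ≤ s := by
      have : cnt B a b s n ≤ s := by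
        unfold cnt
        exact (card_filter_le _ _).trans (by simp)
      exact_mod_cast this
    have c2 : (0 : ℝ) ≤ cnt B a b s n := Nat.cast_nonneg _
    have c3 : 0 ≤ (b - a) * s := mul_nonneg (by linarith) (Nat.cast_nonneg _)
    have c4 : (b - a) * s ≤ 1 * s := mul_le_mul_of_nonneg_right (by linarith) (Nat.cast_nonneg _)
    have c5 : |(cnt B a b s n : ℝ) - (b - a) * s| ≤ s := by
      rw [abs_le]
      constructor <;> linarith
    have c6 : (t : ℝ) ≤ ε * t := by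
      have : (0 : ℝ) ≤ t := Nat.cast_nonneg _
      nlinarith
    linarith

end Pool.Agent.W5h47.BD
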